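import Pool.Agent.H78.XQ.Targets

/-! Module SIZ of the xq board (MP_0f8dca_lc, helper78). -/

set_option autoImplicit false

namespace Pool.Agent.H47.XQ

open Finset Pool.Agent.H78.XQ Pool.Agent.H6.NB Pool.Agent.H70.OQ Pool.Agent.H70.EH Pool.Agent.H70.EI

theorem rns_le (s : List Bool) : rns s ≤ 512 * 103 ^ 2 * (s.length + 1) ^ 3 := by
  unfold rns
  have h1 : qs s + 3 ≤ 103 * (s.length + 1) := by
    unfold qs
    omega
  calc 512 * (qs s + 3) ^ 2 * s.length
      ≤ 512 * (103 * (s.length + 1)) ^ 2 * (s.length + 1) := by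
        refine Nat.mul_le_mul (Nat.mul_le_mul_left _ (Nat.pow_le_pow_left h1 2)) (Nat.le_succ _)
    _ = _ := by ring

theorem wln_le (s : List Bool) : wln s ≤ 512 * 103 ^ 2 * 300 * (s.length + 1) ^ 4 := by
  unfold wln
  have h1 : 2 * s.length + 3 * qs s ≤ 300 * (s.length + 1) := by
    unfold qs
    omega
  calc rns s * (2 * s.length + 3 * qs s)
      ≤ (512 * 103 ^ 2 * (s.length + 1) ^ 3) * (300 * (s.length + 1)) :=
        Nat.mul_le_mul (rns_le s) h1
    _ = _ := by ring

theorem siz (hCOD : Pool.Agent.H6.NB.T_COD) : T_SIZ := by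
  intro s
  refine ⟨rfl, ?_⟩
  have hp : 1 ≤ (s.length + 1) ^ 4 := Nat.one_le_pow _ _ (Nat.succ_pos _)
  have hp1 : s.length + 1 ≤ (s.length + 1) ^ 4 := Nat.le_self_pow (by norm_num) _
  have hp3 : (s.length + 1) ^ 3 ≤ (s.length + 1) ^ 4 :=
    Nat.pow_le_pow_right (Nat.succ_pos _) (by norm_num)
  have hr := rns_le s
  have hw := wln_le s
  have hpos : ∀ (u : Fin (2 * s.length) → Bool) (v : Fin (qs s) → Bool) (b : Bool),
      (pos s (List.ofFn u) (List.ofFn v) b).length ≤ 4 * 10 ^ 9 * (s.length + 1) ^ 4 := by
    intro u v b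
    unfold pos
    rw [hCOD.2, List.length_append, List.length_ofFn, List.length_ofFn]
    have hb : b.toNat ≤ 1 := Bool.toNat_le b
    unfold qs
    omega
  intro i
  rcases i with z | ⟨z, b⟩
  · show ((List.ofFn fun i => (one s).query (z i)).flatten).length ≤ _ ∧
      ∀ w ∈ (List.ofFn fun i => (one s).query (z i)).flatten, w.length ≤ _
    constructor
    · rw [List.length_flatten]
      have h1 : (List.map List.length (List.ofFn fun i => (one s).query (z i))).sum = rns s := by
        rw [List.map_ofFn, List.sum_ofFn]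
        have h2 : ∀ i : Fin (rns s),
            (List.length ∘ fun i => (one s).query (z i)) i = 1 := fun i => rfl
        rw [Finset.sum_congr rfl fun i _ => h2 i]
        simp
      rw [h1]
      omega
    · intro w hw2
      rw [List.mem_flatten] at hw2
      obtain ⟨l, hl, hwl⟩ := hw2
      rw [List.mem_ofFn] at hl
      obtain ⟨i, rfl⟩ := hl
      have h3 : w = pos s (List.ofFn (z i).1) (List.ofFn (z i).2.1) (z i).2.2 :=
        List.mem_singleton.1 hwl
      rw [h3]
      exact hpos _ _ _
  · show (if b then [wps s (List.ofFn z)] else []).length ≤ _ ∧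
      ∀ w ∈ (if b then [wps s (List.ofFn z)] else []), w.length ≤ _
    have hwps : (wps s (List.ofFn z)).length ≤ 4 * 10 ^ 9 * (s.length + 1) ^ 4 := by
      unfold wps
      rw [hCOD.2, List.length_ofFn]
      omega
    cases b
    · simp
    · constructor
      · simp only [if_true, List.length_singleton]
        omega
      · intro w hw2
        simp only [if_true, List.mem_singleton] at hw2
        rw [hw2]
        exact hwps

end Pool.Agent.H47.XQ
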