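import Pool.Agent.H78.XQ.Targets

/-! Module SUM of the xq board (MP_0f8dca_lc, helper78). -/

set_option autoImplicit false

namespace Pool.Agent.H47.XQ

open Finset Pool.Agent.H78.XQ Pool.Agent.H6.NB Pool.Agent.H70.OQ Pool.Agent.H70.EH Pool.Agent.H70.EI

theorem geo4 (N : ℕ) : ∑ r ∈ range N, (1 / 4 : ℝ) ^ r = 4 / 3 - 4 / 3 * (1 / 4) ^ N := by
  induction N with
  | zero => simp
  | succ N ih =>
    rw [Finset.sum_range_succ, ih, pow_succ]
    ring

theorem sum (hCNT : Pool.Agent.H70.EI.T_CNT) : T_SUM := by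
  classical
  intro V W ρ hρ E
  set h : ℕ → ℝ := fun r => if 20 ≤ r then (1 / 8 : ℝ) ^ r else 0 with hh
  have h0 : ∀ r, 0 ≤ h r := by
    intro r
    simp only [hh]
    split_ifs
    · positivity
    · exact le_rfl
  have h1 : ∑ i ∈ E, (match i with
      | .inl p => (1 / 8 : ℝ) ^ key V ρ (.inl p)
      | .inr _ => 0) ≤ ∑ i ∈ E, h (key V ρ i) := by
    refine Finset.sum_le_sum fun i _ => ?_
    rcases i with p | a
    · have h2 : 20 ≤ key V ρ (Sum.inl p) := by
        show 20 ≤ scale (V p.1) p.1 p.2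
        unfold scale
        omega
      show (1 / 8 : ℝ) ^ key V ρ (.inl p) ≤ h (key V ρ (.inl p))
      simp only [hh]
      rw [if_pos h2]
    · exact h0 _
  refine h1.trans ?_
  set N : ℕ := ∑ i ∈ E, key V ρ i + 1 with hN
  have hmaps : ∀ i ∈ E, key V ρ i ∈ range N := by
    intro i hi
    rw [Finset.mem_range, hN]
    have := Finset.single_le_sum (f := fun i => key V ρ i) (fun _ _ => Nat.zero_le _) hi
    exact Nat.lt_succ_of_le this
  rw [← Finset.sum_fiberwise_of_maps_to hmaps]
  have h3 : ∀ r ∈ range N, ∑ i ∈ E with key V ρ i = r, h (key V ρ i) ≤ 1 / 3 * (1 / 4) ^ r := by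
    intro r _
    have h4 : ∑ i ∈ E with key V ρ i = r, h (key V ρ i) =
        ((E.filter fun i => key V ρ i = r).card : ℝ) * h r := by
      rw [Finset.sum_congr rfl (g := fun _ => h r)]
      · rw [Finset.sum_const, nsmul_eq_mul]
      · intro i hi
        rw [(Finset.mem_filter.1 hi).2]
    rw [h4]
    by_cases hr : 20 ≤ r
    · have h5 := hCNT V W ρ hρ E r hr
      have h6 : (E.filter fun i => key V ρ i = r).card ≤ (E.filter fun i => key V ρ i ≤ r).card := by
        refine Finset.card_le_card fun i hi => ?_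
        rw [Finset.mem_filter] at hi ⊢
        exact ⟨hi.1, hi.2.le⟩
      have h7 : 3 * ((E.filter fun i => key V ρ i = r).card : ℝ) ≤ 2 ^ r := by
        exact_mod_cast (Nat.mul_le_mul_left 3 h6).trans h5
      have h8 : h r = (1 / 8) ^ r := if_pos hr
      have h9 : (1 / 4 : ℝ) ^ r = 2 ^ r * (1 / 8) ^ r := by
        rw [← mul_pow]
        norm_num
      rw [h8, h9]
      have h10 : (0 : ℝ) < (1 / 8) ^ r := by positivity
      nlinarith only [h7, h10]
    · have h8 : h r = 0 := if_neg hr
      rw [h8, mul_zero]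
      positivity
  refine (Finset.sum_le_sum h3).trans ?_
  rw [← Finset.mul_sum, geo4]
  have : (0 : ℝ) < (1 / 4) ^ N := by positivity
  linarith

end Pool.Agent.H47.XQ
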